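import Pool.Agent.W314.BA.Stm

/-!
# Project BA, part B2: self-adjointness, contraction, integrals
-/

set_option autoImplicit false

open MeasureTheory Set Filter Topology Real Pool.Agent.W314.BA
open scoped ENNReal NNReal

namespace Pool.Agent.W247.BA

noncomputable section

lemma ee_norm (t : ℝ) : ‖ee t‖ = 1 := by
  unfold ee
  rw [show (2 * π * Complex.I * t : ℂ) = ((2 * π * t : ℝ) : ℂ) * Complex.I by push_cast; ring]
  exact Complex.norm_exp_ofReal_mul_I _

lemma ee_cont : Continuous ee := by
  unfold ee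
  fun_prop

lemma ee_conj (t : ℝ) : (starRingEnd ℂ) (ee t) = ee (-t) := by
  unfold ee
  rw [← Complex.exp_conj]
  congr 1
  simp only [map_mul, Complex.conj_ofReal, Complex.conj_I, map_ofNat]
  push_cast
  ring

lemma ee_zero : ee 0 = 1 := by
  unfold ee
  simp

section
variable {Y : Type} [MeasurableSpace Y] [MulAction G Y] {μ : Measure Y} {c : G → Y → ℤ}

lemma c_one (hS : Sys μ c) (y : Y) : c 1 y = 0 := by
  have h := hS.coc 1 1 y
  rw [one_smul, mul_one] at h
  omega

lemma c_inv (hS : Sys μ c) (g : G) (y : Y) : c g (g⁻¹ • y) = - c g⁻¹ y := by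
  have h := hS.coc g g⁻¹ y
  rw [mul_inv_cancel, c_one hS] at h
  omega

lemma ee_meas (hS : Sys μ c) (θ : ℝ) : Measurable (fun p : Y × G => ee (θ * c p.2 p.1)) := by
  have h1 : Measurable (fun p : Y × G => c p.2 p.1) := hS.c_meas.comp measurable_swap
  have h2 : Measurable (fun p : Y × G => (θ * (c p.2 p.1 : ℝ))) :=
    ((measurable_from_top (f := fun n : ℤ => (n : ℝ))).comp h1).const_mul θ
  exact ee_cont.measurable.comp h2

lemma act_meas (hS : Sys μ c) {f : Y → ℂ} (hf : Measurable f) : Measurable (fun p : Y × G => f (p.2 • p.1)) :=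
  hf.comp (hS.smul_meas.comp measurable_swap)

lemma int_act (hS : Sys μ c) (g : G) {E : Type} [NormedAddCommGroup E] [NormedSpace ℝ E] {φ : Y → E}
    (hφ : StronglyMeasurable φ) : ∫ y, φ (g • y) ∂μ = ∫ y, φ y ∂μ := by
  have h := (hS.mp g).map_eq
  conv_rhs => rw [← h]
  rw [integral_map (hS.mp g).measurable.aemeasurable hφ.aestronglyMeasurable]

lemma int_bdd {α β : Type} [MeasurableSpace α] [MeasurableSpace β] {μ : Measure α} {ν : Measure β}
    [IsFiniteMeasure μ] [IsFiniteMeasure ν] {φ : α × β → ℂ} (h : Measurable φ) {C : ℝ} (hC : ∀ p, ‖φ p‖ ≤ C) :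
    Integrable φ (μ.prod ν) :=
  Integrable.of_bound h.aestronglyMeasurable C (Eventually.of_forall hC)

lemma swapC {α β : Type} [MeasurableSpace α] [MeasurableSpace β] (μ : Measure α) (ν : Measure β)
    [IsFiniteMeasure μ] [IsFiniteMeasure ν] (K : α → β → ℂ) (h : Measurable (fun p : α × β => K p.1 p.2)) (C : ℝ)
    (hC : ∀ a b, ‖K a b‖ ≤ C) : ∫ a, ∫ b, K a b ∂ν ∂μ = ∫ b, ∫ a, K a b ∂μ ∂ν :=
  integral_integral_swap (f := K) (int_bdd (φ := fun p => K p.1 p.2) h (fun _ => hC _ _))

lemma inv_bm (x : ℝ) (Φ : G → ℂ) (hΦ : MeasurePreserving (fun g : G => g⁻¹) (bm x) (bm x)) :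
    ∫ g, Φ g⁻¹ ∂(bm x) = ∫ g, Φ g ∂(bm x) :=
  hΦ.integral_comp' (f := MeasurableEquiv.inv G) Φ

lemma map_inv_bm (x : ℝ) : MeasurePreserving (fun g : G => g⁻¹) (bm x) (bm x) := by
  have h : MeasurePreserving (fun g : G => g⁻¹) (hm.restrict (Bx x)) (hm.restrict (Bx x)) := by
    have h1 := hm_inv.restrict_preimage (Bx_meas x)
    have h2 : (fun h : G => h⁻¹) ⁻¹' Bx x = Bx x := by
      ext g
      exact inv_mem_Bx
    rwa [h2] at h1
  refine ⟨h.measurable, ?_⟩
  unfold bm
  rw [Measure.map_smul, h.map_eq]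

lemma sq_int_le {α : Type} [MeasurableSpace α] (ν : Measure α) [IsProbabilityMeasure ν] {φ : α → ℝ}
    (h : Measurable φ) {C : ℝ} (hC : ∀ p, |φ p| ≤ C) : (∫ a, φ a ∂ν) ^ 2 ≤ ∫ a, φ a ^ 2 ∂ν := by
  have h1 : Integrable φ ν := Integrable.of_bound h.aestronglyMeasurable C (Eventually.of_forall hC)
  have h2 : Integrable (fun a => φ a ^ 2) ν := by
    refine Integrable.of_bound (h.pow_const 2).aestronglyMeasurable (C ^ 2) (Eventually.of_forall fun a => ?_)
    rw [Real.norm_eq_abs, abs_pow]
    exact pow_le_pow_left₀ (abs_nonneg _) (hC a) 2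
  obtain ⟨m, hm⟩ : ∃ m, m = ∫ a, φ a ∂ν := ⟨_, rfl⟩
  have h3 : 0 ≤ ∫ a, (φ a - m) ^ 2 ∂ν := integral_nonneg fun a => sq_nonneg _
  have h4 : ∫ a, (φ a - m) ^ 2 ∂ν = ∫ a, φ a ^ 2 ∂ν - 2 * m * ∫ a, φ a ∂ν + m ^ 2 := by
    have e : (fun a => (φ a - m) ^ 2) = fun a => (φ a ^ 2 - 2 * m * φ a) + m ^ 2 := by
      funext a
      ring
    have h5 : Integrable (fun a => φ a ^ 2 - 2 * m * φ a) ν := h2.sub (h1.const_mul _)
    rw [e, integral_add h5 (integrable_const _), integral_sub h2 (h1.const_mul _),
      integral_const_mul, integral_const]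
    simp
  rw [h4, ← hm] at h3
  rw [← hm]
  linarith [h3]

end

theorem main (_h : Basic1Stmt) : Basic2Stmt := by
  intro Y _ _ μ c hS θ f f' hf hf' x hx
  obtain ⟨hfm, C, hC⟩ := hf
  obtain ⟨hfm', C', hC'⟩ := hf'
  have := hS.prob
  have := bm_prob hx
  have hK : ∀ (θ : ℝ), Measurable (fun p : Y × G => ee (θ * c p.2 p.1) * f (p.2 • p.1)) := fun θ =>
    (ee_meas hS θ).mul (act_meas hS hfm)
  refine ⟨?_, ?_, ?_, ?_⟩
  · -- self-adjointness
    have hC0 : 0 ≤ C := (norm_nonneg _).trans (hC (Classical.choice (α := Y) (by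
      by_contra hne
      rw [not_nonempty_iff] at hne
      have := hS.prob.measure_univ
      rw [univ_eq_empty_iff.2 hne] at this
      simp at this)))
    have m1 : Measurable (fun p : Y × G => ee (θ * c p.2 p.1) * f (p.2 • p.1) * (starRingEnd ℂ) (f' p.1)) :=
      (hK θ).mul (Complex.continuous_conj.measurable.comp (hfm'.comp measurable_fst))
    have m2 : Measurable (fun p : Y × G => ee (-(θ * c p.2 p.1)) * (f p.1 * (starRingEnd ℂ) (f' (p.2 • p.1)))) := by
      have : Measurable (fun p : Y × G => ee (-(θ * c p.2 p.1))) := by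
        have h := ee_meas hS (-θ)
        simpa only [neg_mul] using h
      exact this.mul ((hfm.comp measurable_fst).mul
        (Complex.continuous_conj.measurable.comp (act_meas hS hfm')))
    have s1 := swapC μ (bm x) (fun (y : Y) (g : G) => ee (θ * c g y) * f (g • y) * (starRingEnd ℂ) (f' y)) m1 (C * C')
      (fun y g => by
      rw [norm_mul, norm_mul, ee_norm, one_mul, RCLike.norm_conj]
      exact mul_le_mul (hC _) (hC' _) (norm_nonneg _) hC0)
    have s2 := swapC μ (bm x) (fun (y : Y) (g : G) => ee (-(θ * c g y)) * (f y * (starRingEnd ℂ) (f' (g • y)))) m2 (C * C')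
      (fun y g => by
      rw [norm_mul, norm_mul, ee_norm, one_mul, RCLike.norm_conj]
      exact mul_le_mul (hC _) (hC' _) (norm_nonneg _) hC0)
    calc ∫ y, tw c θ (bm x) f y * (starRingEnd ℂ) (f' y) ∂μ
        = ∫ y, ∫ g, ee (θ * c g y) * f (g • y) * (starRingEnd ℂ) (f' y) ∂(bm x) ∂μ := by
          unfold tw
          congr 1
          funext y
          rw [integral_mul_const]
      _ = ∫ g, ∫ y, ee (θ * c g y) * f (g • y) * (starRingEnd ℂ) (f' y) ∂μ ∂(bm x) := s1
      _ = ∫ g, ∫ y, ee (-(θ * c g⁻¹ y)) * (f y * (starRingEnd ℂ) (f' (g⁻¹ • y))) ∂μ ∂(bm x) := by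
          congr 1
          funext g
          have m3 : Measurable (fun y : Y => ee (θ * c g y) * f (g • y) * (starRingEnd ℂ) (f' y)) :=
            m1.comp (f := fun y : Y => (y, g)) measurable_prodMk_right
          rw [← int_act hS g⁻¹ m3.stronglyMeasurable]
          congr 1
          funext y
          rw [c_inv hS, smul_inv_smul]
          push_cast
          rw [mul_neg, mul_assoc]
      _ = ∫ g, ∫ y, ee (-(θ * c g y)) * (f y * (starRingEnd ℂ) (f' (g • y))) ∂μ ∂(bm x) := by
          exact inv_bm x (fun g => ∫ y, ee (-(θ * c g y)) * (f y * (starRingEnd ℂ) (f' (g • y))) ∂μ) (map_inv_bm x)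
      _ = ∫ y, ∫ g, ee (-(θ * c g y)) * (f y * (starRingEnd ℂ) (f' (g • y))) ∂(bm x) ∂μ := s2.symm
      _ = ∫ y, f y * (starRingEnd ℂ) (tw c θ (bm x) f' y) ∂μ := by
          congr 1
          funext y
          unfold tw
          rw [← integral_conj, ← integral_const_mul]
          congr 1
          funext g
          rw [map_mul, ee_conj]
          ring
  · -- contraction
    have m1 : Measurable (fun p : Y × G => (‖f (p.2 • p.1)‖ ^ 2 : ℝ)) := (act_meas hS hfm).norm.pow_const 2
    have i1 : Integrable (fun p : Y × G => (‖f (p.2 • p.1)‖ ^ 2 : ℝ)) (μ.prod (bm x)) := by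
      refine Integrable.of_bound m1.aestronglyMeasurable (C ^ 2) (Eventually.of_forall fun p => ?_)
      rw [Real.norm_eq_abs, abs_pow, abs_norm]
      exact pow_le_pow_left₀ (norm_nonneg _) (hC _) 2
    calc ∫ y, ‖tw c θ (bm x) f y‖ ^ 2 ∂μ ≤ ∫ y, ∫ g, ‖f (g • y)‖ ^ 2 ∂(bm x) ∂μ := by
          apply integral_mono_of_nonneg (Eventually.of_forall fun y => by positivity) i1.integral_prod_left
          refine Eventually.of_forall fun y => ?_
          have m3 : Measurable (fun g : G => ‖f (g • y)‖) :=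
            (act_meas hS hfm).norm.comp (measurable_const.prodMk measurable_id)
          have h1 : ‖tw c θ (bm x) f y‖ ≤ ∫ g, ‖f (g • y)‖ ∂(bm x) := by
            unfold tw
            refine (norm_integral_le_integral_norm _).trans (le_of_eq ?_)
            congr 1
            funext g
            rw [norm_mul, ee_norm, one_mul]
          exact (pow_le_pow_left₀ (norm_nonneg _) h1 2).trans
            (sq_int_le (bm x) m3 (C := C) (fun g => by rw [abs_norm]; exact hC _))
      _ = ∫ g, ∫ y, ‖f (g • y)‖ ^ 2 ∂μ ∂(bm x) := integral_integral_swap i1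
      _ = ∫ y, ‖f y‖ ^ 2 ∂μ := by
          have : ∀ g : G, ∫ y, ‖f (g • y)‖ ^ 2 ∂μ = ∫ y, ‖f y‖ ^ 2 ∂μ := fun g =>
            int_act hS g (φ := fun y => ‖f y‖ ^ 2) (hfm.norm.pow_const 2).stronglyMeasurable
          simp only [this]
          rw [integral_const]
          simp
  · -- integrals
    have i1 : Integrable (fun p : Y × G => f (p.2 • p.1)) (μ.prod (bm x)) :=
      int_bdd (act_meas hS hfm) (fun p => hC _)
    calc ∫ y, tw c 0 (bm x) f y ∂μ = ∫ y, ∫ g, f (g • y) ∂(bm x) ∂μ := by
          congr 1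
          funext y
          unfold tw
          congr 1
          funext g
          rw [zero_mul, ee_zero, one_mul]
      _ = ∫ g, ∫ y, f (g • y) ∂μ ∂(bm x) := integral_integral_swap i1
      _ = ∫ y, f y ∂μ := by
          have : ∀ g : G, ∫ y, f (g • y) ∂μ = ∫ y, f y ∂μ := fun g => int_act hS g hfm.stronglyMeasurable
          simp only [this]
          rw [integral_const]
          simp
  · intro F hF
    obtain ⟨hFc, D, hD⟩ := hF
    have hcont : Continuous (fun g : G => F (hh g)) :=
      hFc.comp_continuous hh_continuous (fun g => one_le_hh g)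
    have hint : Integrable (fun g : G => F (hh g)) hm := by
      have h1 : Integrable F (hm.map hh) := by
        rw [map_hh]
        have h2 : IntegrableOn (fun t : ℝ => |D| * t ^ (-2 : ℝ)) (Ici 1) := by
          rw [integrableOn_Ici_iff_integrableOn_Ioi]
          exact (integrableOn_Ioi_rpow_of_lt (by norm_num) (by norm_num)).const_mul _
        refine Integrable.mono' h2 (hFc.aestronglyMeasurable measurableSet_Ici) ?_
        rw [ae_restrict_iff' measurableSet_Ici]
        refine Eventually.of_forall fun t ht => ?_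
        have ht1 : (1 : ℝ) ≤ t := ht
        refine (hD t ht1).trans ?_
        have h3 : 0 ≤ Fs 2 t := by
          unfold Fs
          positivity
        have h4 : Fs 2 t ≤ t ^ (-2 : ℝ) := by
          unfold Fs
          rw [Real.rpow_neg (by linarith), Real.rpow_two]
          apply inv_anti₀ (by positivity)
          apply pow_le_pow_left₀ (by linarith)
          linarith
        exact (mul_le_mul_of_nonneg_right (le_abs_self D) h3).trans
          (mul_le_mul_of_nonneg_left h4 (abs_nonneg D))
      exact (integrable_map_measure (by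
        rw [map_hh]
        exact hFc.aestronglyMeasurable measurableSet_Ici) hh_measurable.aemeasurable).1 h1
    have i1 : Integrable (fun p : Y × G => (F (hh p.2) : ℂ) * f (p.2 • p.1)) (μ.prod hm) := by
      have h1 : Integrable (fun p : Y × G => (F (hh p.2) : ℂ)) (μ.prod hm) := (hint.comp_snd μ).ofReal
      refine (h1.norm.mul_const C).mono' ?_ (Eventually.of_forall fun p => ?_)
      · exact ((Complex.measurable_ofReal.comp (hcont.measurable.comp measurable_snd)).mul
          (act_meas hS hfm)).aestronglyMeasurable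
      · rw [norm_mul]
        exact mul_le_mul_of_nonneg_left (hC _) (norm_nonneg _)
    calc ∫ y, op c 0 F f y ∂μ = ∫ y, ∫ g, (F (hh g) : ℂ) * f (g • y) ∂hm ∂μ := by
          congr 1
          funext y
          unfold op
          congr 1
          funext g
          rw [zero_mul, ee_zero, one_mul]
      _ = ∫ g, ∫ y, (F (hh g) : ℂ) * f (g • y) ∂μ ∂hm := integral_integral_swap i1
      _ = ∫ g, (F (hh g) : ℂ) * ∫ y, f y ∂μ ∂hm := by
          congr 1
          funext g
          rw [integral_const_mul, int_act hS g hfm.stronglyMeasurable]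
      _ = ((∫ g, F (hh g) ∂hm : ℝ) : ℂ) * ∫ y, f y ∂μ := by
          rw [integral_mul_const, integral_complex_ofReal]

end

end Pool.Agent.W247.BA

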